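import Pool.Agent.U174.AK.Stm

/-!
# Project AK, package SEC: extension of sections over countable torsion-free quotients
-/

set_option autoImplicit false

namespace Pool.Agent.U67.AK

open Pool.Agent.U174.AK

/-- Extension of a lift over a finitely generated group with torsion-free quotient. -/
theorem split {A W V : Type} [CommGroup A] [CommGroup W] [CommGroup V] [hfg : Group.FG A]
    (H : Subgroup A) (hp : ∀ (a : A) (m : ℕ), 0 < m → a ^ m ∈ H → a ∈ H)
    (v : W →* V) (hv : Function.Surjective v) (ν : A →* V) (t₀ : H →* W)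
    (h0 : ∀ h : H, v (t₀ h) = ν h) :
    ∃ t : A →* W, (∀ h : H, t h = t₀ h) ∧ ∀ a, v (t a) = ν a := by
  classical
  let B : Submodule ℤ (Additive A) := AddSubgroup.toIntSubmodule (Subgroup.toAddSubgroup H)
  have hB : ∀ a : A, Additive.ofMul a ∈ B ↔ a ∈ H := fun a => Iff.rfl
  have : Module.Finite ℤ (Additive A) := Module.Finite.iff_addGroup_fg.mpr inferInstance
  have : Module.Finite ℤ (Additive A ⧸ B) := inferInstance
  have key : ∀ (n : ℤ) (x : Additive A ⧸ B), n • x = 0 → n = 0 ∨ x = 0 := by
    intro n x hx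
    obtain ⟨a, rfl⟩ := B.mkQ_surjective x
    rw [← map_smul, Submodule.mkQ_apply, Submodule.Quotient.mk_eq_zero] at hx
    by_cases hn : n = 0
    · exact Or.inl hn
    · right
      rw [Submodule.mkQ_apply, Submodule.Quotient.mk_eq_zero]
      have h1 : (n.natAbs : ℤ) • a ∈ B := by
        rcases Int.natAbs_eq n with h | h
        · rw [← h]; exact hx
        · have : (n.natAbs : ℤ) • a = - (n • a) := by
            rw [← neg_smul]; congr 1; omega
          rw [this]; exact B.neg_mem hx
      have h2 : (Additive.toMul a) ^ n.natAbs ∈ H := by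
        rw [natCast_zsmul] at h1
        exact h1
      exact hp _ _ (Int.natAbs_pos.mpr hn) h2
  have : Module.IsTorsionFree ℤ (Additive A ⧸ B) := by
    rw [Module.isTorsionFree_iff_smul_eq_zero]
    intro n x
    exact key n x
  have : Module.Free ℤ (Additive A ⧸ B) := Module.free_of_finite_type_torsion_free'
  obtain ⟨σ, hσ⟩ := Module.projective_lifting_property B.mkQ LinearMap.id B.mkQ_surjective
  let vl : Additive W →ₗ[ℤ] Additive V := (MonoidHom.toAdditive v).toIntLinearMap
  let νl : Additive A →ₗ[ℤ] Additive V := (MonoidHom.toAdditive ν).toIntLinearMap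
  have hvl : Function.Surjective vl := fun x => hv x
  obtain ⟨τ, hτ⟩ := Module.projective_lifting_property vl (νl ∘ₗ σ) hvl
  let s : A →* A := MonoidHom.toAdditive.symm ((σ ∘ₗ B.mkQ).toAddMonoidHom)
  let τ' : A →* W := MonoidHom.toAdditive.symm ((τ ∘ₗ B.mkQ).toAddMonoidHom)
  have hs : ∀ a, a * (s a)⁻¹ ∈ H := by
    intro a
    have h1 : B.mkQ (Additive.ofMul a - σ (B.mkQ (Additive.ofMul a))) = 0 := by
      rw [map_sub]
      have h2 : B.mkQ (σ (B.mkQ (Additive.ofMul a))) = B.mkQ (Additive.ofMul a) :=
        LinearMap.congr_fun hσ _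
      rw [h2, sub_self]
    rw [Submodule.mkQ_apply, Submodule.Quotient.mk_eq_zero, sub_eq_add_neg] at h1
    exact h1
  have hv' : ∀ a, v (τ' a) = ν (s a) := by
    intro a
    exact LinearMap.congr_fun hτ (B.mkQ (Additive.ofMul a))
  have hz : ∀ a ∈ H, B.mkQ (Additive.ofMul a) = 0 := by
    intro a ha
    rw [Submodule.mkQ_apply, Submodule.Quotient.mk_eq_zero]
    exact ha
  have hs1 : ∀ a ∈ H, s a = 1 := by
    intro a ha
    have h1 : σ (B.mkQ (Additive.ofMul a)) = 0 := by rw [hz a ha, map_zero]
    exact h1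
  have ht1 : ∀ a ∈ H, τ' a = 1 := by
    intro a ha
    have h1 : τ (B.mkQ (Additive.ofMul a)) = 0 := by rw [hz a ha, map_zero]
    exact h1
  let r : A →* H :=
    { toFun := fun a => ⟨a * (s a)⁻¹, hs a⟩
      map_one' := by
        apply Subtype.ext
        simp
      map_mul' := by
        intro a b
        apply Subtype.ext
        simp only [map_mul, mul_inv, Subgroup.coe_mul]
        exact mul_mul_mul_comm _ _ _ _ }
  refine ⟨(t₀.comp r) * τ', ?_, ?_⟩
  · intro h
    rw [MonoidHom.mul_apply, ht1 _ h.2, mul_one, MonoidHom.comp_apply]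
    congr 1
    apply Subtype.ext
    show (h : A) * (s h)⁻¹ = h
    rw [hs1 _ h.2, inv_one, mul_one]
  · intro a
    rw [MonoidHom.mul_apply, map_mul, MonoidHom.comp_apply, h0, hv']
    show ν (a * (s a)⁻¹) * ν (s a) = ν a
    rw [← map_mul, inv_mul_cancel_right]

theorem units_surj {L : Type} [Field L] (P : ValuationSubring L) :
    Function.Surjective (Units.map P.valuation.toMonoidWithZeroHom.toMonoidHom) := by
  intro γ
  obtain ⟨x, hx⟩ := P.valuation_surjective (γ : P.ValueGroup)
  have h0 : x ≠ 0 := by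
    rintro rfl
    rw [map_zero] at hx
    exact γ.ne_zero hx.symm
  refine ⟨Units.mk0 x h0, ?_⟩
  apply Units.ext
  exact hx

/-- the conditions: values, products, given values of the section -/
abbrev Ix : Type := ℕ ⊕ (ℕ × ℕ) ⊕ ℕ

/-- the variables which occur in a condition -/
def occ : Ix → Finset ℕ
  | .inl n => {n}
  | .inr (.inl (n, m)) => {n, m}
  | .inr (.inr n) => {n}

theorem t_SEC : S_SEC := by
  classical
  intro L _ P hsat G _ hG H hp ν t₀ h0
  have := hG
  obtain ⟨e, he⟩ := exists_surjective_nat G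
  obtain ⟨c, hc⟩ := exists_surjective_nat Ix
  -- polynomials and values
  let q : Ix → MvPolynomial ℕ L := fun i => match i with
    | .inl n => MvPolynomial.X n
    | .inr (.inl (n, m)) =>
        MvPolynomial.X (Function.surjInv he (e n * e m)) - MvPolynomial.X n * MvPolynomial.X m
    | .inr (.inr n) => if h : e n ∈ H then
        MvPolynomial.X n - MvPolynomial.C ((t₀ ⟨e n, h⟩ : Lˣ) : L) else 0
  let w : Ix → P.ValueGroup := fun i => match i with
    | .inl n => (ν (e n) : P.ValueGroup)
    | .inr (.inl _) => 0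
    | .inr (.inr _) => 0
  have hfin : ∀ m : ℕ, ∃ x : ℕ → L, ∀ i < m,
      P.valuation (MvPolynomial.eval x (q (c i))) = w (c i) := by
    intro m
    let S : Finset ℕ := (Finset.range m).biUnion fun i => occ (c i)
    let G0 : Subgroup G := Subgroup.closure (e '' (S : Set ℕ))
    have : Group.FG G0 := by
      rw [Group.fg_iff_subgroup_fg]
      exact ⟨S.image e, by rw [Finset.coe_image]⟩
    have hocc : ∀ i < m, ∀ n ∈ occ (c i), e n ∈ G0 := by
      intro i hi n hn
      apply Subgroup.subset_closure
      exact ⟨n, Finset.mem_coe.mpr (Finset.mem_biUnion.mpr ⟨i, Finset.mem_range.mpr hi, hn⟩), rfl⟩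
    let H0 : Subgroup G0 := H.subgroupOf G0
    let j : H0 →* H :=
      { toFun := fun h => ⟨((h : G0) : G), h.2⟩
        map_one' := rfl
        map_mul' := fun _ _ => rfl }
    obtain ⟨t, ht1, ht2⟩ := split H0 (fun a k hk ha => hp (a : G) k hk ha)
      (Units.map P.valuation.toMonoidWithZeroHom.toMonoidHom) (units_surj P)
      (ν.comp G0.subtype) (t₀.comp j) (by
        intro h
        apply Units.ext
        exact h0 (j h))
    let x : ℕ → L := fun n => if h : e n ∈ G0 then ((t ⟨e n, h⟩ : Lˣ) : L) else 1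
    have hx : ∀ (n : ℕ) (h : e n ∈ G0), x n = ((t ⟨e n, h⟩ : Lˣ) : L) := fun n h => dif_pos h
    refine ⟨x, fun i hi => ?_⟩
    have hoc := hocc i hi
    generalize c i = ci at hoc ⊢
    rcases ci with n | ⟨n, k⟩ | n
    · have hn : e n ∈ G0 := hoc n (Finset.mem_singleton_self n)
      show P.valuation (MvPolynomial.eval x (MvPolynomial.X n)) = (ν (e n) : P.ValueGroup)
      rw [MvPolynomial.eval_X, hx n hn]
      have := ht2 ⟨e n, hn⟩
      exact congrArg Units.val this
    · have hn : e n ∈ G0 := hoc n (by simp [occ])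
      have hk : e k ∈ G0 := hoc k (by simp [occ])
      have hnk : e (Function.surjInv he (e n * e k)) = e n * e k := Function.surjInv_eq he _
      have hnk' : e (Function.surjInv he (e n * e k)) ∈ G0 := by
        rw [hnk]; exact G0.mul_mem hn hk
      show P.valuation (MvPolynomial.eval x (MvPolynomial.X (Function.surjInv he (e n * e k)) -
        MvPolynomial.X n * MvPolynomial.X k)) = 0
      rw [map_sub, map_mul, MvPolynomial.eval_X, MvPolynomial.eval_X, MvPolynomial.eval_X,
        hx _ hn, hx _ hk, hx _ hnk']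
      have h1 : (⟨e (Function.surjInv he (e n * e k)), hnk'⟩ : G0) = ⟨e n, hn⟩ * ⟨e k, hk⟩ :=
        Subtype.ext hnk
      rw [h1, map_mul, Units.val_mul, sub_self, map_zero]
    · have hn : e n ∈ G0 := hoc n (Finset.mem_singleton_self n)
      show P.valuation (MvPolynomial.eval x (if h : e n ∈ H then
        MvPolynomial.X n - MvPolynomial.C ((t₀ ⟨e n, h⟩ : Lˣ) : L) else 0)) = 0
      split_ifs with h
      · rw [map_sub, MvPolynomial.eval_X, MvPolynomial.eval_C, hx _ hn]
        have h1 := ht1 ⟨⟨e n, hn⟩, h⟩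
        have h2 : t ⟨e n, hn⟩ = t₀ ⟨e n, h⟩ := h1
        rw [h2, sub_self, map_zero]
      · rw [map_zero, map_zero]
  obtain ⟨x, hx⟩ := hsat (fun i => q (c i)) (fun i => w (c i)) hfin
  have hx' : ∀ i : Ix, P.valuation (MvPolynomial.eval x (q i)) = w i := by
    intro i
    obtain ⟨k, rfl⟩ := hc i
    exact hx k
  have x1 : ∀ n, P.valuation (x n) = (ν (e n) : P.ValueGroup) := by
    intro n
    have := hx' (.inl n)
    change P.valuation (MvPolynomial.eval x (MvPolynomial.X n)) = (ν (e n) : P.ValueGroup) at this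
    rwa [MvPolynomial.eval_X] at this
  have x2 : ∀ n m, x (Function.surjInv he (e n * e m)) = x n * x m := by
    intro n m
    have := hx' (.inr (.inl (n, m)))
    change P.valuation (MvPolynomial.eval x (MvPolynomial.X (Function.surjInv he (e n * e m)) -
        MvPolynomial.X n * MvPolynomial.X m)) = 0 at this
    rw [map_sub, map_mul, MvPolynomial.eval_X, MvPolynomial.eval_X, MvPolynomial.eval_X,
      Valuation.zero_iff] at this
    exact sub_eq_zero.mp this
  have x3 : ∀ n (h : e n ∈ H), x n = ((t₀ ⟨e n, h⟩ : Lˣ) : L) := by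
    intro n h
    have := hx' (.inr (.inr n))
    change P.valuation (MvPolynomial.eval x (if h : e n ∈ H then
        MvPolynomial.X n - MvPolynomial.C ((t₀ ⟨e n, h⟩ : Lˣ) : L) else 0)) = 0 at this
    rw [dif_pos h, map_sub, MvPolynomial.eval_X, MvPolynomial.eval_C, Valuation.zero_iff] at this
    exact sub_eq_zero.mp this
  have x0 : ∀ n, x n ≠ 0 := by
    intro n h
    have := x1 n
    rw [h, map_zero] at this
    exact (ν (e n)).ne_zero this.symm
  have hse : ∀ γ : G, e (Function.surjInv he γ) = γ := fun γ => Function.surjInv_eq he γ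
  have tmul : ∀ γ δ : G, x (Function.surjInv he (γ * δ)) =
      x (Function.surjInv he γ) * x (Function.surjInv he δ) := by
    intro γ δ
    have := x2 (Function.surjInv he γ) (Function.surjInv he δ)
    rwa [hse, hse] at this
  let t : G →* Lˣ := MonoidHom.mk' (fun γ => Units.mk0 (x (Function.surjInv he γ)) (x0 _)) (by
    intro γ δ
    apply Units.ext
    exact tmul γ δ)
  refine ⟨t, ?_, ?_⟩
  · intro h
    apply Units.ext
    show x (Function.surjInv he (h : G)) = _
    have hm : e (Function.surjInv he (h : G)) ∈ H := by rw [hse]; exact h.2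
    rw [x3 _ hm]
    congr 2
    exact Subtype.ext (hse _)
  · intro γ
    show P.valuation (x (Function.surjInv he γ)) = _
    rw [x1, hse]

end Pool.Agent.U67.AK
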